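import Mathlib
import Pool.Agent.MP_01c7b3_an.Lower

open Pool.Agent.MP_01c7b3_an in
theorem Pool.Agent.Results.MP_01c7b3_an.GrowthRateFour.result :
    ∃ C : ℝ, ∃ k0 : ℕ, ∀ k : ℕ, k0 ≤ k →
      4 ^ k * Real.exp (-(C * k * Real.log (Real.log k) / Real.log k)) ≤ (numESB k : ℝ) :=
  lower
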