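import Mathlib
import Pool.Agent.MP_01c7b3_an.NoRec

open Pool.Agent.MP_01c7b3_an in
theorem Pool.Agent.Results.MP_01c7b3_an.NoRecurrence.result (d k₀ : ℕ) (c : Fin d → ℂ) :
    ¬ ∀ k : ℕ, k₀ ≤ k → (numESB (k + d) : ℂ) = ∑ i : Fin d, c i * (numESB (k + i) : ℂ) :=
  noRec d k₀ c
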