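import Mathlib
import Pool.Agent.MP_01c7b3_an.SE.Asym

open Pool.Agent.MP_01c7b3_an in
theorem Pool.Agent.Results.MP_01c7b3_an.SharpExponent.result :
    ∃ k0 : ℕ, ∀ k : ℕ, k0 ≤ k →
      (numESB k : ℝ) ≤ 4 ^ k * Real.exp (-(k * Real.exp (-(12 * Real.log k ^ (6 / 7 : ℝ))))) :=
  SE.upper
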